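import Pool.Agent.Helper36.LM.Defs

set_option autoImplicit false

namespace Pool.Agent.Helper36.LM

open Module Finset

set_option linter.unusedSectionVars false

variable {K : Type} [Field K] {E : Type} [AddCommGroup E] [Module K E] [FiniteDimensional K E]
  {ι : Type} [Fintype ι]

namespace Conf

private theorem memLine (C : Conf K E ι) (i : ι) (f : Dual K E) :
    f ∈ C.line i ↔ ∃ α β : K, α • C.a i + β • C.b i = f := Submodule.mem_span_pair

private theorem frMem {C : Conf K E ι} {i : ι} {c : Dual K E} {ψ : E} {d : Dual K E}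
    (h : C.Fr i c ψ d) (f : Dual K E) : f ∈ C.line i ↔ ∃ α β : K, α • c + β • d = f := by
  rw [h.span]; exact Submodule.mem_span_pair

private theorem frOne {C : Conf K E ι} {i : ι} {c : Dual K E} {ψ : E} {d : Dual K E}
    (h : C.Fr i c ψ d) : i ∈ C.one := by
  have hc : c ∈ C.R := ⟨ψ, h.eq⟩
  have key : (C.line i ⊓ C.R : Submodule K (Dual K E)) = Submodule.span K {c} := by
    apply le_antisymm
    · rintro f ⟨hf1, hf2⟩
      obtain ⟨α, β, rfl⟩ := (frMem h f).1 hf1
      by_cases hβ : β = 0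
      · subst hβ
        rw [zero_smul, add_zero]
        exact Submodule.smul_mem _ _ (Submodule.mem_span_singleton_self c)
      · exfalso
        apply h.nmem
        have h1 : β • d ∈ C.R := by
          have := Submodule.sub_mem _ hf2 (Submodule.smul_mem C.R α hc)
          rwa [add_sub_cancel_left] at this
        have h2 := Submodule.smul_mem C.R β⁻¹ h1
        rwa [smul_smul, inv_mul_cancel₀ hβ, one_smul] at h2
    · rw [Submodule.span_singleton_le_iff_mem]
      exact ⟨(frMem h c).2 ⟨1, 0, by simp⟩, hc⟩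
  simp only [one, Finset.mem_filter, Finset.mem_univ, true_and]
  rw [key]
  exact finrank_span_singleton h.ne

section twist

variable {C : Conf K E ι} {j : ι} {c : Dual K E} {ψ : E} {d : Dual K E} (hj : C.Fr j c ψ d)
  {μ : K} (h : 1 + μ * d ψ ≠ 0)

theorem tw_R : (C.tw ψ d μ h).R = C.R := rfl

theorem tw_rnk : (C.tw ψ d μ h).rnk = C.rnk := rfl

theorem mem_tw_line {i : ι} (f : Dual K E) :
    f ∈ (C.tw ψ d μ h).line i ↔ ∃ f' ∈ C.line i, f = f' + (μ * f' ψ) • d := by
  have key : ∀ α β : K, α • (C.tw ψ d μ h).a i + β • (C.tw ψ d μ h).b i =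
      (α • C.a i + β • C.b i) + (μ * (α • C.a i + β • C.b i) ψ) • d := by
    intro α β
    simp only [tw, LinearMap.add_apply, LinearMap.smul_apply, smul_eq_mul]
    module
  rw [memLine]
  constructor
  · rintro ⟨α, β, rfl⟩
    exact ⟨_, (memLine C i _).2 ⟨α, β, rfl⟩, key α β⟩
  · rintro ⟨f', hf', rfl⟩
    obtain ⟨α, β, rfl⟩ := (memLine C i f').1 hf'
    exact ⟨α, β, key α β⟩

theorem tw_line_eq {i : ι} (h0 : ∀ f ∈ C.line i, f ψ = 0) :
    (C.tw ψ d μ h).line i = C.line i := by
  ext f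
  rw [mem_tw_line]
  constructor
  · rintro ⟨f', hf', rfl⟩
    rw [h0 f' hf', mul_zero, zero_smul, add_zero]
    exact hf'
  · intro hf
    exact ⟨f, hf, by rw [h0 f hf, mul_zero, zero_smul, add_zero]⟩

include hj in
theorem tw_two {i : ι} (hμ : μ ≠ 0) (hi : C.line i ≤ C.R) {f : Dual K E} (hf : f ∈ C.line i)
    (h0 : f ψ ≠ 0) : i ∈ (C.tw ψ d μ h).one := by
  obtain ⟨α, β, hαβ⟩ := (memLine C i f).1 hf
  -- an element of the line which vanishes at ψ
  set s : K := C.a i ψ with hs
  set t : K := C.b i ψ with ht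
  set f1 : Dual K E := t • C.a i - s • C.b i with hf1
  have hst : s ≠ 0 ∨ t ≠ 0 := by
    by_contra hcon
    push Not at hcon
    apply h0
    rw [← hαβ]
    simp only [LinearMap.add_apply, LinearMap.smul_apply, smul_eq_mul]
    rw [← hs, ← ht, hcon.1, hcon.2]
    ring
  have hf1ne : f1 ≠ 0 := by
    intro h1
    have e : t • C.a i + (-s) • C.b i = f1 := by rw [hf1]; module
    have := C.ind i t (-s) (by rw [e]; exact h1)
    rcases hst with h2 | h2
    · exact h2 (neg_eq_zero.1 this.2)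
    · exact h2 this.1
  have hf1ψ : f1 ψ = 0 := by
    simp only [hf1, LinearMap.sub_apply, LinearMap.smul_apply, smul_eq_mul]
    rw [← hs, ← ht]; ring
  have hf1l : f1 ∈ C.line i := (memLine C i f1).2 ⟨t, -s, by rw [hf1]; module⟩
  obtain ⟨ψ1, hψ1⟩ := hi hf1l
  -- the line is spanned by f1 and f
  have hD : α * s + β * t ≠ 0 := by
    intro h1
    apply h0
    rw [← hαβ]
    simp only [LinearMap.add_apply, LinearMap.smul_apply, smul_eq_mul]
    exact h1
  have hspan : ∀ g ∈ C.line i, ∃ x y : K, g = x • f1 + y • f := by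
    intro g hg
    obtain ⟨γ, δ, rfl⟩ := (memLine C i g).1 hg
    refine ⟨(γ * β - δ * α) / (α * s + β * t), (γ * s + δ * t) / (α * s + β * t), ?_⟩
    rw [← hαβ, hf1]
    have e1 : (γ * β - δ * α) / (α * s + β * t) * t + (γ * s + δ * t) / (α * s + β * t) * α = γ := by
      field_simp; ring
    have e2 : -((γ * β - δ * α) / (α * s + β * t) * s) +
      (γ * s + δ * t) / (α * s + β * t) * β = δ := by
      field_simp; ring
    conv_lhs => rw [← e1, ← e2]
    module
  have hfr : (C.tw ψ d μ h).Fr i f1 ψ1 (f + (μ * f ψ) • d) := by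
    refine ⟨hψ1, hf1ne, ?_, ?_⟩
    · ext g
      rw [mem_tw_line, Submodule.mem_span_pair]
      constructor
      · rintro ⟨g', hg', rfl⟩
        obtain ⟨x, y, rfl⟩ := hspan g' hg'
        refine ⟨x, y, ?_⟩
        simp only [LinearMap.add_apply, LinearMap.smul_apply, smul_eq_mul, hf1ψ]
        module
      · rintro ⟨x, y, rfl⟩
        refine ⟨x • f1 + y • f, Submodule.add_mem _ (Submodule.smul_mem _ _ hf1l)
          (Submodule.smul_mem _ _ hf), ?_⟩
        simp only [LinearMap.add_apply, LinearMap.smul_apply, smul_eq_mul, hf1ψ]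
        module
    · intro h1
      apply hj.nmem
      have h2 : (μ * f ψ) • d ∈ C.R := by
        have := Submodule.sub_mem C.R h1 (hi hf)
        rwa [add_sub_cancel_left] at this
      have h3 := Submodule.smul_mem C.R (μ * f ψ)⁻¹ h2
      rwa [smul_smul, inv_mul_cancel₀ (mul_ne_zero hμ h0), one_smul] at h3
  exact frOne hfr

theorem tw_fr_nonadj {i : ι} {c' : Dual K E} {ψ' : E} {d' : Dual K E} (hi : C.Fr i c' ψ' d')
    (h0 : c' ψ = 0) (h1 : d' + (μ * d' ψ) • d ∉ C.R) :
    (C.tw ψ d μ h).Fr i c' ψ' (d' + (μ * d' ψ) • d) := by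
  refine ⟨hi.eq, hi.ne, ?_, h1⟩
  ext g
  rw [mem_tw_line, Submodule.mem_span_pair]
  constructor
  · rintro ⟨g', hg', rfl⟩
    obtain ⟨x, y, rfl⟩ := (frMem hi g').1 hg'
    refine ⟨x, y, ?_⟩
    simp only [LinearMap.add_apply, LinearMap.smul_apply, smul_eq_mul, h0]
    module
  · rintro ⟨x, y, rfl⟩
    refine ⟨x • c' + y • d', (frMem hi _).2 ⟨x, y, rfl⟩, ?_⟩
    simp only [LinearMap.add_apply, LinearMap.smul_apply, smul_eq_mul, h0]
    module

include hj in
theorem tw_fr_adj {i : ι} {c' : Dual K E} {ψ' : E} {d' : Dual K E} (hi : C.Fr i c' ψ' d')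
    (hμ : μ ≠ 0) (h0 : c' ψ ≠ 0) {δ : K} (hδ : δ ≠ 0) {η : E} (hη : C.T η = d' - δ • d) :
    (C.tw ψ d μ h).Fr i ((-(δ + μ * d' ψ) / (μ * c' ψ)) • c' + C.T η)
      ((-(δ + μ * d' ψ) / (μ * c' ψ)) • ψ' + η) (c' + (μ * c' ψ) • d) := by
  have hμc : μ * c' ψ ≠ 0 := mul_ne_zero hμ h0
  set γ : K := c' ψ with hγ
  set e : K := d' ψ with he
  set α : K := -(δ + μ * e) / (μ * γ) with hα
  have hαe : α * (μ * γ) = -(δ + μ * e) := by
    rw [hα]; field_simp
  have hc' : c' ∈ C.R := ⟨ψ', hi.eq⟩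
  have hid : α • c' + C.T η = α • (c' + (μ * γ) • d) + (d' + (μ * e) • d) := by
    have h2 : α • (c' + (μ * γ) • d) + (d' + (μ * e) • d) =
        α • c' + d' + (α * (μ * γ) + μ * e) • d := by module
    rw [h2, hαe, hη]
    module
  refine ⟨?_, ?_, ?_, ?_⟩
  · show C.T (α • ψ' + η) = _
    rw [map_add, map_smul, hi.eq]
  · intro h1
    have h2 : (α • c' + C.T η) ψ = 0 := by rw [h1]; rfl
    have h3 : α * γ + (e - δ * d ψ) = 0 := by
      rw [hη] at h2
      simpa only [LinearMap.add_apply, LinearMap.smul_apply, LinearMap.sub_apply, smul_eq_mul,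
        ← hγ, ← he] using h2
    have h4 : δ * (1 + μ * d ψ) = 0 := by
      linear_combination -μ * h3 + hαe
    rcases mul_eq_zero.1 h4 with h5 | h5
    · exact hδ h5
    · exact h h5
  · ext g
    rw [mem_tw_line, Submodule.mem_span_pair]
    constructor
    · rintro ⟨g', hg', rfl⟩
      obtain ⟨x, y, rfl⟩ := (frMem hi g').1 hg'
      refine ⟨y, x - y * α, ?_⟩
      rw [hid]
      simp only [LinearMap.add_apply, LinearMap.smul_apply, smul_eq_mul, ← hγ, ← he]
      module
    · rintro ⟨x, y, rfl⟩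
      refine ⟨(x * α + y) • c' + x • d', (frMem hi _).2 ⟨_, _, rfl⟩, ?_⟩
      rw [hid]
      simp only [LinearMap.add_apply, LinearMap.smul_apply, smul_eq_mul, ← hγ, ← he]
      module
  · intro h1
    apply hj.nmem
    have h2 : (μ * γ) • d ∈ C.R := by
      have := Submodule.sub_mem C.R h1 hc'
      rwa [add_sub_cancel_left] at this
    have h3 := Submodule.smul_mem C.R (μ * γ)⁻¹ h2
    rwa [smul_smul, inv_mul_cancel₀ hμc, one_smul] at h3

include hj in
theorem tw_bot {i : ι} {c' : Dual K E} {ψ' : E} {d' : Dual K E} (hi : C.Fr i c' ψ' d')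
    (hμ : μ ≠ 0) (h0 : c' ψ ≠ 0) (h1 : ∀ δ : K, δ ≠ 0 → d' - δ • d ∉ C.R) :
    (C.tw ψ d μ h).line i ⊓ (C.tw ψ d μ h).R = ⊥ := by
  have hc' : c' ∈ C.R := ⟨ψ', hi.eq⟩
  rw [eq_bot_iff]
  rintro g ⟨hg1, hg2⟩
  obtain ⟨g', hg', rfl⟩ := (mem_tw_line h g).1 hg1
  obtain ⟨x, y, rfl⟩ := (frMem hi g').1 hg'
  simp only [LinearMap.add_apply, LinearMap.smul_apply, smul_eq_mul] at hg2 ⊢
  set z : K := μ * (x * c' ψ + y * d' ψ) with hz
  have hg3 : y • d' + z • d ∈ C.R := by
    have := Submodule.sub_mem C.R hg2 (Submodule.smul_mem C.R x hc')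
    have e : x • c' + y • d' + z • d - x • c' = y • d' + z • d := by abel
    rwa [e] at this
  have hy : y = 0 := by
    by_contra hy
    have h2 : d' + (z / y) • d ∈ C.R := by
      have := Submodule.smul_mem C.R y⁻¹ hg3
      rw [smul_add, smul_smul, smul_smul, inv_mul_cancel₀ hy, one_smul] at this
      rwa [div_eq_inv_mul]
    by_cases hzy : z / y = 0
    · rw [hzy, zero_smul, add_zero] at h2
      exact hi.nmem h2
    · apply h1 (-(z / y)) (neg_ne_zero.2 hzy)
      have e : d' - (-(z / y)) • d = d' + (z / y) • d := by module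
      rwa [e]
  subst hy
  have hz0 : z = 0 := by
    by_contra hz0
    apply hj.nmem
    rw [zero_smul, zero_add] at hg3
    have := Submodule.smul_mem C.R z⁻¹ hg3
    rwa [smul_smul, inv_mul_cancel₀ hz0, one_smul] at this
  have hx : x = 0 := by
    rw [hz, zero_mul, add_zero] at hz0
    rcases mul_eq_zero.1 hz0 with h2 | h2
    · exact absurd h2 hμ
    · rcases mul_eq_zero.1 h2 with h3 | h3
      · exact h3
      · exact absurd h3 h0
  rw [hx, hz0]
  simp

end twist

end Conf

end Pool.Agent.Helper36.LM
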