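import Pool.Agent.Helper31.LM.E
import Pool.Agent.Helper13.LM.A
import Pool.Agent.Helper34.LM.Frames

set_option autoImplicit false

namespace Pool.Agent.Helper36.LM

open Module Finset

set_option linter.unusedSectionVars false

variable {K : Type} [Field K] {E : Type} [AddCommGroup E] [Module K E] [FiniteDimensional K E]
  {ι : Type} [Fintype ι]

namespace Conf

theorem Fr.smul_left {C : Conf K E ι} {i : ι} {c : Dual K E} {ψ : E} {d : Dual K E}
    (h : C.Fr i c ψ d) {δ : K} (hδ : δ ≠ 0) : C.Fr i (δ • c) (δ • ψ) d := by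
  refine ⟨by rw [map_smul, h.eq], ?_, ?_, h.nmem⟩
  · exact smul_ne_zero hδ h.ne
  · rw [h.span]
    ext g
    rw [Submodule.mem_span_pair, Submodule.mem_span_pair]
    constructor
    · rintro ⟨x, y, rfl⟩
      refine ⟨x * δ⁻¹, y, ?_⟩
      rw [smul_smul, mul_assoc, inv_mul_cancel₀ hδ, mul_one]
    · rintro ⟨x, y, rfl⟩
      exact ⟨x * δ, y, by rw [smul_smul]⟩

/-- The frames after a twist are linear in the parameter. -/
theorem fr_twist {C : Conf K E ι} {j : ι} {c : Dual K E} {ψ : E} {d : Dual K E}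
    (hj : C.Fr j c ψ d)
    (hpar : ∀ i c' ψ' d', C.Fr i c' ψ' d' → c' ψ ≠ 0 → ∃ δ : K, δ ≠ 0 ∧ d' - δ • d ∈ C.R)
    {i : ι} (hi : i ∈ C.one) :
    ∃ (p q : E) (d' : Dual K E), C.Fr i (C.T p) p d' ∧
      Good 1 (fun μ : K => μ ≠ 0 → ∀ h : 1 + μ * d ψ ≠ 0,
        ∃ d'', (C.tw ψ d μ h).Fr i (C.T (p + μ • q)) (p + μ • q) d'') := by
  obtain ⟨c', ψ', d', hfr⟩ := exists_fr hi
  by_cases h0 : c' ψ = 0
  · refine ⟨ψ', 0, d', by rw [hfr.eq]; exact hfr, ?_⟩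
    have hg : Good 1 (fun μ : K => d' + (μ * d' ψ) • d ∉ C.R) := by
      by_cases hb : ∃ μ₀ : K, d' + (μ₀ * d' ψ) • d ∈ C.R
      · obtain ⟨μ₀, hμ₀⟩ := hb
        refine ⟨{μ₀}, by simp, fun μ hμ hmem => ?_⟩
        rw [Finset.mem_singleton] at hμ
        have h1 : ((μ - μ₀) * d' ψ) • d ∈ C.R := by
          have := Submodule.sub_mem C.R hmem hμ₀
          have e : d' + (μ * d' ψ) • d - (d' + (μ₀ * d' ψ) • d) = ((μ - μ₀) * d' ψ) • d := by
            module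
          rwa [e] at this
        by_cases h2 : d' ψ = 0
        · rw [h2, mul_zero, zero_smul, add_zero] at hmem
          exact hfr.nmem hmem
        · have h3 : (μ - μ₀) * d' ψ ≠ 0 := mul_ne_zero (sub_ne_zero.2 hμ) h2
          have h4 := Submodule.smul_mem C.R ((μ - μ₀) * d' ψ)⁻¹ h1
          rw [smul_smul, inv_mul_cancel₀ h3, one_smul] at h4
          exact hj.nmem h4
      · push Not at hb
        exact ⟨∅, by simp, fun μ _ => hb μ⟩
    refine hg.mono le_rfl ?_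
    intro μ hμ hμ0 h
    refine ⟨d' + (μ * d' ψ) • d, ?_⟩
    rw [smul_zero, add_zero, hfr.eq]
    exact tw_fr_nonadj h hfr h0 hμ
  · obtain ⟨δ, hδ, hR⟩ := hpar i c' ψ' d' hfr h0
    obtain ⟨η, hη⟩ := hR
    refine ⟨δ • ψ', (d' ψ) • ψ' - (c' ψ) • η, d', ?_, ?_⟩
    · rw [map_smul, hfr.eq]
      exact hfr.smul_left hδ
    · refine ⟨∅, by simp, fun μ _ hμ0 h => ?_⟩
      have h1 := (tw_fr_adj hj h hfr hμ0 h0 hδ hη).smul_left
        (neg_ne_zero.2 (mul_ne_zero hμ0 h0))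
      refine ⟨c' + (μ * c' ψ) • d, ?_⟩
      have e : δ • ψ' + μ • ((d' ψ) • ψ' - (c' ψ) • η) =
          (-(μ * c' ψ)) • ((-(δ + μ * d' ψ) / (μ * c' ψ)) • ψ' + η) := by
        have e1 : (-(μ * c' ψ)) * (-(δ + μ * d' ψ) / (μ * c' ψ)) = δ + μ * d' ψ := by
          field_simp
        rw [smul_add, smul_smul, e1]
        module
      rw [e, map_smul, map_add, map_smul, hfr.eq]
      exact h1

theorem good_twist {C : Conf K E ι} {j : ι} {c : Dual K E} {ψ : E} {d : Dual K E}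
    (hj : C.Fr j c ψ d)
    (hpar : ∀ i c' ψ' d', C.Fr i c' ψ' d' → c' ψ ≠ 0 → ∃ δ : K, δ ≠ 0 ∧ d' - δ • d ∈ C.R) :
    Good (2 + Fintype.card ι + 2 * Fintype.card ι ^ 2) (fun μ : K => μ ≠ 0 ∧
      ∃ h : 1 + μ * d ψ ≠ 0, C.one ⊆ (C.tw ψ d μ h).one ∧
        ∀ i ∈ C.one, ∀ k ∈ C.one, C.adj i k → (C.tw ψ d μ h).adj i k) := by
  have hex : ∀ i : ι, ∃ (p q : E) (d' : Dual K E), i ∈ C.one → (C.Fr i (C.T p) p d' ∧
      Good 1 (fun μ : K => μ ≠ 0 → ∀ h : 1 + μ * d ψ ≠ 0,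
        ∃ d'', (C.tw ψ d μ h).Fr i (C.T (p + μ • q)) (p + μ • q) d'')) := by
    intro i
    by_cases hi : i ∈ C.one
    · obtain ⟨p, q, d', h1⟩ := fr_twist hj hpar hi
      exact ⟨p, q, d', fun _ => h1⟩
    · exact ⟨0, 0, 0, fun h => absurd h hi⟩
  choose p q d' hpq using hex
  have g1 : Good 1 (fun μ : K => μ ≠ 0) :=
    (good_lin (0 : K) 1 (Or.inr one_ne_zero)).mono le_rfl (fun μ hμ => by simpa using hμ)
  have g2 : Good 1 (fun μ : K => 1 + μ * d ψ ≠ 0) :=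
    (good_lin (1 : K) (d ψ) (Or.inl one_ne_zero)).mono le_rfl
      (fun μ hμ => by rwa [mul_comm μ])
  have g3 : Good (Fintype.card ι * 1) (fun μ : K => ∀ i ∈ (Finset.univ : Finset ι),
      i ∈ C.one → μ ≠ 0 → ∀ h : 1 + μ * d ψ ≠ 0,
        ∃ d'', (C.tw ψ d μ h).Fr i (C.T (p i + μ • q i)) (p i + μ • q i) d'') := by
    refine Good.all (Finset.univ : Finset ι) (n := 1) ?_
    intro i _
    by_cases hi : i ∈ C.one
    · exact (hpq i hi).2.mono le_rfl (fun μ hμ _ => hμ)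
    · exact ⟨∅, by simp, fun μ _ h => absurd h hi⟩
  have g4 : Good ((Finset.univ : Finset (ι × ι)).card * 2)
      (fun μ : K => ∀ x ∈ (Finset.univ : Finset (ι × ι)),
        C.T (p x.1) (p x.2) ≠ 0 →
          C.T (p x.1 + μ • q x.1) (p x.2 + μ • q x.2) ≠ 0) := by
    refine Good.all (Finset.univ : Finset (ι × ι)) (n := 2) ?_
    rintro ⟨i, k⟩ _
    by_cases hne : C.T (p i) (p k) = 0
    · exact ⟨∅, by simp, fun μ _ h => absurd hne h⟩
    · refine (good_quad (C.T (p i) (p k)) (C.T (p i) (q k) + C.T (q i) (p k))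
        (C.T (q i) (q k)) hne).mono le_rfl ?_
      intro μ hμ _ h0
      apply hμ
      rw [← h0]
      simp only [map_add, map_smul, LinearMap.add_apply, LinearMap.smul_apply, smul_eq_mul]
      ring
  have hcard : 1 + 1 + Fintype.card ι * 1 + (Finset.univ : Finset (ι × ι)).card * 2 ≤
      2 + Fintype.card ι + 2 * Fintype.card ι ^ 2 := by
    rw [Finset.card_univ, Fintype.card_prod]
    apply le_of_eq
    ring
  refine (((g1.and g2).and g3).and g4).mono hcard ?_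
  rintro μ ⟨⟨⟨hμ0, h⟩, h3⟩, h4⟩
  refine ⟨hμ0, h, ?_, ?_⟩
  · intro i hi
    obtain ⟨d'', hd''⟩ := h3 i (Finset.mem_univ i) hi hμ0 h
    exact hd''.mem_one
  · intro i hi k hk hik
    obtain ⟨di, hdi⟩ := h3 i (Finset.mem_univ i) hi hμ0 h
    obtain ⟨dk, hdk⟩ := h3 k (Finset.mem_univ k) hk hμ0 h
    rw [adj_iff hdi hdk]
    apply h4 (i, k) (Finset.mem_univ _)
    exact (adj_iff (hpq i hi).1 (hpq k hk).1).1 hik

end Conf

end Pool.Agent.Helper36.LM
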